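import Pool.Agent.H255.BT.All

/-!
# Hecke von Neumann algebras of Baumslag–Solitar Hecke pairs with the same ratio and gcd

If `|m|/n = |m'|/n'` and `gcd(m,n) = gcd(m',n')` (with `m, m' ≠ 0` and `n, n' > 0`), then the Hecke
von Neumann algebras of `(BS(m,n), ⟨a⟩)` and `(BS(m',n'), ⟨a⟩)` are isomorphic.
-/

set_option autoImplicit false

namespace Pool.Agent.Results.MP_9a76ab_an.SameGcd

open Pool.Agent.H255.BT

theorem result : ∀ m n m' n' : ℤ, m ≠ 0 → 0 < n → m' ≠ 0 → 0 < n' →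
    |m| * n' = |m'| * n → Int.gcd m n = Int.gcd m' n' →
    HeckeIso (Subgroup.zpowers (ga m n)) (Subgroup.zpowers (ga m' n')) :=
  fun m n m' n' hm hn _ hn' hr hg => All.main m n m' n' hm hn hn' hg hr

end Pool.Agent.Results.MP_9a76ab_an.SameGcd
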